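import Mathlib
import Pool.Agent.H88.Am3
import Pool.Agent.H88.AmDefs

open Pool.Agent.H88.Am

theorem Pool.Agent.Results.MP_31efb7_an.No.result (p q : ℝ) (hp : 0 < p) (hp1 : p < 1)
    (hpq : p ≤ q) (_hq : q ≤ 1) : ENNReal.ofReal (2 ^ (1 / q)) < ⨆ n, A p q n :=
  main hp hp1 (hp.trans_le hpq)
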